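import Pool.Agent.Q148.HF.Asm
import Pool.Agent.Q148.HF.TaskSupG
import Pool.Agent.Q148.HF.TaskAB
import Pool.Agent.Q148.HF.TaskZC
import Pool.Agent.Q148.HF.TaskDC
import Pool.Agent.Q148.HF.TaskAtt
import Pool.Agent.Q148.HF.TaskSegC
import Pool.Agent.Q148.HF.TaskCnC
import Pool.Agent.Q148.HF.TaskSupC
import Pool.Agent.Q148.HF.TaskPos
import Pool.Agent.Q148.HF.TaskNear
import Pool.Agent.Q148.HF.TaskFar
import Pool.Agent.Q148.HF.TaskZero
import Pool.Agent.Q148.HF.TaskSub
import Pool.Agent.Q148.HF.TaskConn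
import Pool.Agent.Q148.HF.TaskFixA
import Pool.Agent.Q148.HF.TaskClopen
import Pool.Agent.Q148.HF.TaskBasis
import Pool.Agent.Q148.HF.TaskFixB
import Pool.Agent.Q148.HF.TaskZ0
import Pool.Agent.Q148.HF.TaskFanC
import Pool.Agent.Q148.HF.TaskNLC
import Pool.Agent.Q148.HF.TaskCone

/-!
# `C(M)` is a retract of `2^M` for the harmonic fan, and for the cone over every compact
totally disconnected set of real numbers
-/

set_option autoImplicit false

namespace Pool.Agent.Results.MP_85483e_gt.HarmonicFan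

open TopologicalSpace Metric Set Filter Topology Pool.Agent.Q148.HF

/-- Let `Z` be a nonempty compact totally disconnected subset of `[0,1]`. Then
`M = fan Z = {(z s, s) : z ∈ Z, 0 ≤ s ≤ 1}` is a continuum, it is the cone over `Z`, and there is a
retraction of `2^M` onto `C(M)`. If `Z` is the harmonic sequence with its limit, the only limit point
of `Z`, then `M` is not locally connected. -/
theorem result :
    (∀ Z : Set ℝ, IsCompact Z → Z.Nonempty → Z ⊆ Icc 0 1 → IsTotallyDisconnected Z →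
      (IsCompact (fan Z) ∧ IsConnected (fan Z)) ∧
      (∃ f : Z × Icc (0 : ℝ) 1 → fan Z, Continuous f ∧ Function.Surjective f ∧
        ∀ p q, f p = f q ↔ p = q ∨ ((p.2 : ℝ) = 1 ∧ (q.2 : ℝ) = 1)) ∧
      ∃ r : NonemptyCompacts (fan Z) → NonemptyCompacts (fan Z), Continuous r ∧
        (∀ A, IsConnected (r A : Set (fan Z))) ∧
          ∀ A : NonemptyCompacts (fan Z), IsConnected (A : Set (fan Z)) → r A = A) ∧
    (IsCompact Z0 ∧ Z0.Nonempty ∧ Z0 ⊆ Icc 0 1 ∧ IsTotallyDisconnected Z0 ∧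
      (∀ x : ℝ, AccPt x (𝓟 Z0) ↔ x = 0) ∧ ¬ LocallyConnectedSpace (fan Z0)) := by
  refine ⟨fun Z h1 h2 h3 h4 => ?_, ?_⟩
  · have hZ : ZOk Z := ⟨h1, h2, h3, h4⟩
    exact ⟨TFanC.main Z hZ, TCone.main Z hZ, core TAtt.main TSupG.main TAB.main TZC.main TDC.main
      TSegC.main TCnC.main TSupC.main TPos.main TNear.main TFar.main (TZero.main TSupG.main) TSub.main
      TConn.main TFixA.main TClopen.main TBasis.main TFixB.main Z hZ⟩
  · have h : TaskZ0 := TZ0.main
    exact ⟨h.1.cpt, h.1.ne, h.1.sub, h.1.td, h.2, TNLC.main⟩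

end Pool.Agent.Results.MP_85483e_gt.HarmonicFan
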